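import Pool.Agent.K4H74.RSA.Main

/-!
# The limit variance of random sequential adsorption of `r`-mers

`block`, `free`, `law`, `jam` (`Pool/Agent/K4H74/RSA/Proc.lean`, `Seq.lean`): the process. The sites
are `0, ..., n - 1`; at each placement a block of `r` consecutive sites is chosen uniformly among
the blocks which are still entirely uncovered, and its sites become covered, until no such block
is left. `jam r n` is the law of the number `C_n` of blocks placed in `n` placements, which is the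
final number (third part of the theorem: more placements change nothing).

`SS`, `kap`, `NN`, `vv` (`Pool/Agent/K4H74/RSA/Main.lean`): with
`S(y) = ∑_{k=1}^{r-1} (1 - y^k)/k`,
* `kap r = κ = ∫_0^1 exp(-2 S(y)) dy` (the density of `r`-mers, `μ(r) = 1 - r κ`),
* `NN r y = N(y) = y^(r-1) ∫_0^y exp(2 (S(y) - S(t))) dt - κ (r - (r-1) y) + 1 - y`,
* `vv r = v(r) = 2 ∫_0^1 exp(-2 S(y)) ((1-y) ∑_{n<r} (1 - κ (n+r))^2 y^n + (N(y)/(1-y))^2) dy`.

Theorem: `Var(C_n)/n → v(r)`; more precisely, for every `ρ > 0`,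
`E C_n = κ (n + r) - 1 + O(ρ^n)` and `Var C_n = v(r) (n + r) + O(ρ^n)`.

Proof: `D_n = C_n - κ (n + r) + 1` satisfies `D_n = D_i + D_j`, if the first block leaves `i` sites
on one side and `j` on the other, without an additional term.
-/

namespace Pool.Agent.K4H74.Retired.LimitVariance

open Filter Topology MeasureTheory ProbabilityTheory Pool.Agent.K4H74.RSA

/-- After `|U|` placements nothing changes any more. -/
lemma law_stable (r : ℕ) (hr : 1 ≤ r) : ∀ (m m' : ℕ) (U : Finset ℕ),
    U.card ≤ m → U.card ≤ m' → law r m U = law r m' U := by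
  intro m
  induction m with
  | zero =>
    intro m' U h1 h2
    have hU : U = ∅ := Finset.card_eq_zero.1 (by omega)
    have hf : ¬ (free r U).Nonempty := by
      rw [hU]
      simp [free]
    cases m' with
    | zero => rfl
    | succ m' => simp only [law, dif_neg hf]
  | succ m ih =>
    intro m' U h1 h2
    by_cases h : (free r U).Nonempty
    · cases m' with
      | zero =>
        exfalso
        obtain ⟨i, hi⟩ := h
        have hU : U = ∅ := Finset.card_eq_zero.1 (by omega)
        rw [hU] at hi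
        simp [free] at hi
      | succ m' =>
        simp only [law, dif_pos h]
        refine PMF.ext fun k => ?_
        rw [PMF.bind_apply, PMF.bind_apply]
        refine tsum_congr fun i => ?_
        by_cases hi : i ∈ free r U
        · have := card_sdiff_lt hr hi
          rw [ih m' (U \ block r i) (by omega) (by omega)]
        · rw [PMF.uniformOfFinset_apply_of_notMem h hi, zero_mul, zero_mul]
    · cases m' with
      | zero => simp only [law, dif_neg h]
      | succ m' => simp only [law, dif_neg h]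

lemma vv_pos {r : ℕ} (hr : 2 ≤ r) : 0 < vv r := by
  have hr1 : 1 ≤ r := by omega
  have h0 : vv r = ∫ y in (0 : ℝ)..1, FF r y / EE r 1 := by
    rw [vv, ← intervalIntegral.integral_const_mul]
    refine intervalIntegral.integral_congr fun y _ => ?_
    exact (FF_eq hr1 y).symm
  rw [h0]
  refine intervalIntegral.intervalIntegral_pos_of_pos_on ((FF_int hr1).div_const _) ?_
    zero_lt_one
  intro y hy
  rw [FF_eq hr1 y]
  have hy1 : 0 < 1 - y := by linarith [hy.2]
  have hsum : 0 < ∑ n ∈ Finset.range r, (1 - kap r * (n + r)) ^ 2 * y ^ n := by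
    have hnn : ∀ n ∈ Finset.range r, 0 ≤ (1 - kap r * (n + r)) ^ 2 * y ^ n := by
      intro n _
      have := pow_pos hy.1 n
      positivity
    by_contra hcon
    have hz : ∑ n ∈ Finset.range r, (1 - kap r * (n + r)) ^ 2 * y ^ n = 0 :=
      le_antisymm (not_lt.1 hcon) (Finset.sum_nonneg hnn)
    have hz' := (Finset.sum_eq_zero_iff_of_nonneg hnn).1 hz
    have e0 := hz' 0 (Finset.mem_range.2 (by omega))
    have e1 := hz' 1 (Finset.mem_range.2 (by omega))
    rw [mul_eq_zero, or_iff_left (pow_pos hy.1 _).ne', sq_eq_zero_iff] at e0 e1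
    push_cast at e0 e1
    have hk : kap r = 0 := by linarith
    rw [hk] at e0
    norm_num at e0
  have := Real.exp_pos (-2 * SS r y)
  positivity

theorem result (r : ℕ) (hr : 1 ≤ r) :
    Tendsto (fun n : ℕ => Var[fun k : ℕ => (k : ℝ); jam r n] / n) atTop (𝓝 (vv r)) ∧
    (2 ≤ r → 0 < vv r) ∧
    (∀ n m : ℕ, n ≤ m → (law r m (Finset.range n)).toMeasure = jam r n) ∧
    ∀ ρ : ℝ, 0 < ρ → ∃ C : ℝ, ∀ n : ℕ,
      |∫ k, (k : ℝ) ∂(jam r n) - (kap r * (n + r) - 1)| ≤ C * ρ ^ n ∧
      |Var[fun k : ℕ => (k : ℝ); jam r n] - vv r * (n + r)| ≤ C * ρ ^ n := by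
  obtain ⟨hd, -⟩ := mean_small hr
  have he := var_small hr
  have hV : Sm (fun n => Var[fun k : ℕ => (k : ℝ); jam r n] - vv r * ((n : ℝ) + r)) := by
    intro ρ h0 h1
    obtain ⟨C1, hC1, h1b⟩ := he ρ h0 h1
    obtain ⟨C2, hC2, h2b⟩ := hd ρ h0 h1
    refine ⟨C1 + C2 ^ 2, by positivity, fun n => ?_⟩
    beta_reduce
    rw [var_jam, var_eq]
    have e : ee r n - dd r n ^ 2 - vv r * ((n : ℝ) + r) =
        (ee r n - vv r * ((n : ℝ) + r)) + (-(dd r n ^ 2)) := by ring
    rw [e, add_mul]
    refine (abs_add_le _ _).trans (add_le_add (h1b n) ?_)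
    rw [abs_neg, abs_pow]
    have hp : ρ ^ n ≤ 1 := pow_le_one₀ h0.le h1.le
    calc |dd r n| ^ 2 ≤ (C2 * ρ ^ n) ^ 2 := pow_le_pow_left₀ (abs_nonneg _) (h2b n) 2
      _ = C2 ^ 2 * (ρ ^ n * ρ ^ n) := by ring
      _ ≤ C2 ^ 2 * (ρ ^ n * 1) :=
          mul_le_mul_of_nonneg_left (mul_le_mul_of_nonneg_left hp (by positivity)) (by positivity)
      _ = C2 ^ 2 * ρ ^ n := by ring
  refine ⟨?_, vv_pos, ?_, ?_⟩
  · obtain ⟨C, hC, h⟩ := hV (1 / 2) (by norm_num) (by norm_num)
    have h1 : Tendsto (fun n : ℕ => (C + |vv r| * r) / (n : ℝ)) atTop (𝓝 0) :=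
      tendsto_const_div_atTop_nhds_zero_nat _
    have h2 : Tendsto (fun n : ℕ => Var[fun k : ℕ => (k : ℝ); jam r n] / n - vv r) atTop
        (𝓝 0) := by
      refine squeeze_zero_norm' ?_ h1
      filter_upwards [eventually_gt_atTop 0] with n hn
      have hn' : (0 : ℝ) < n := by exact_mod_cast hn
      have h3 := h n
      have hp : C * (1 / 2 : ℝ) ^ n ≤ C :=
        mul_le_of_le_one_right hC (pow_le_one₀ (by norm_num) (by norm_num))
      rw [Real.norm_eq_abs]
      have e : Var[fun k : ℕ => (k : ℝ); jam r n] / n - vv r =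
          ((Var[fun k : ℕ => (k : ℝ); jam r n] - vv r * ((n : ℝ) + r)) + vv r * r) / n := by
        field_simp
        ring
      rw [e, abs_div, abs_of_pos hn']
      refine div_le_div_of_nonneg_right ?_ hn'.le
      refine (abs_add_le _ _).trans (add_le_add (h3.trans hp) ?_)
      rw [abs_mul, abs_of_nonneg (Nat.cast_nonneg (α := ℝ) r)]
    have h3 := h2.add_const (vv r)
    simpa using h3
  · intro n m hnm
    rw [jam, law_stable r hr m n (Finset.range n) (by simpa using hnm) (by simp)]
  · intro ρ hρ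
    have hρ' : 0 < min ρ (1 / 2) := lt_min hρ (by norm_num)
    have hρ'' : min ρ (1 / 2) < 1 := lt_of_le_of_lt (min_le_right _ _) (by norm_num)
    obtain ⟨C1, hC1, h1b⟩ := hV _ hρ' hρ''
    obtain ⟨C2, hC2, h2b⟩ := hd _ hρ' hρ''
    refine ⟨C1 + C2, fun n => ?_⟩
    have hp : (min ρ (1 / 2)) ^ n ≤ ρ ^ n := pow_le_pow_left₀ hρ'.le (min_le_left _ _) n
    have hpn : 0 ≤ ρ ^ n := by positivity
    constructor
    · rw [mean_jam]
      have e : al r n - (kap r * ((n : ℝ) + r) - 1) = dd r n := by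
        rw [dd]
        ring
      rw [e]
      calc |dd r n| ≤ C2 * (min ρ (1 / 2)) ^ n := h2b n
        _ ≤ C2 * ρ ^ n := mul_le_mul_of_nonneg_left hp hC2
        _ ≤ (C1 + C2) * ρ ^ n := mul_le_mul_of_nonneg_right (by linarith) hpn
    · calc |Var[fun k : ℕ => (k : ℝ); jam r n] - vv r * ((n : ℝ) + r)|
          ≤ C1 * (min ρ (1 / 2)) ^ n := h1b n
        _ ≤ C1 * ρ ^ n := mul_le_mul_of_nonneg_left hp hC1
        _ ≤ (C1 + C2) * ρ ^ n := mul_le_mul_of_nonneg_right (by linarith) hpn

end Pool.Agent.K4H74.Retired.LimitVariance
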